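import Pool.Agent.Lib.MP_39c2b7_co.Interfaces

/-!
Module DMINOR: graphs with a dual are closed under minors.
-/

namespace StrongArb.H59

open Classical Finset

/-- the edge has exactly one end in `A` -/
def Cross {V : Type} (A : Set V) (e : Sym2 V) : Prop := ∃ u v, e = s(u, v) ∧ u ∈ A ∧ v ∉ A

theorem card_mem_cross {V : Type} [Fintype V] (A : Set V) (u v : V) (huv : u ≠ v) :
    (((univ : Finset V).filter (fun x => x ∈ A ∧ x ∈ s(u, v))).card : ZMod 2) =
      if Cross A s(u, v) then 1 else 0 := by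
  have hcross : Cross A s(u, v) ↔ (u ∈ A ∧ v ∉ A) ∨ (v ∈ A ∧ u ∉ A) := by
    constructor
    · rintro ⟨a, b, h, ha, hb⟩
      rcases Sym2.eq_iff.1 h with ⟨rfl, rfl⟩ | ⟨rfl, rfl⟩
      · exact Or.inl ⟨ha, hb⟩
      · exact Or.inr ⟨ha, hb⟩
    · rintro (⟨ha, hb⟩ | ⟨ha, hb⟩)
      · exact ⟨u, v, rfl, ha, hb⟩
      · exact ⟨v, u, Sym2.eq_swap, ha, hb⟩
  by_cases hu : u ∈ A <;> by_cases hv : v ∈ A
  · have h1 : (univ : Finset V).filter (fun x => x ∈ A ∧ x ∈ s(u, v)) = {u, v} := by
      ext x
      simp only [mem_filter, mem_univ, true_and, Sym2.mem_iff, mem_insert, mem_singleton]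
      constructor
      · exact fun h => h.2
      · rintro (rfl | rfl)
        · exact ⟨hu, Or.inl rfl⟩
        · exact ⟨hv, Or.inr rfl⟩
    rw [h1, card_pair huv, if_neg (by rw [hcross]; tauto)]
    rfl
  · have h1 : (univ : Finset V).filter (fun x => x ∈ A ∧ x ∈ s(u, v)) = {u} := by
      ext x
      simp only [mem_filter, mem_univ, true_and, Sym2.mem_iff, mem_singleton]
      constructor
      · rintro ⟨h, rfl | rfl⟩
        · rfl
        · exact absurd h hv
      · rintro rfl
        exact ⟨hu, Or.inl rfl⟩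
    rw [h1, card_singleton, if_pos (by rw [hcross]; tauto)]
    rfl
  · have h1 : (univ : Finset V).filter (fun x => x ∈ A ∧ x ∈ s(u, v)) = {v} := by
      ext x
      simp only [mem_filter, mem_univ, true_and, Sym2.mem_iff, mem_singleton]
      constructor
      · rintro ⟨h, rfl | rfl⟩
        · exact absurd h hu
        · rfl
      · rintro rfl
        exact ⟨hv, Or.inr rfl⟩
    rw [h1, card_singleton, if_pos (by rw [hcross]; tauto)]
    rfl
  · have h1 : (univ : Finset V).filter (fun x => x ∈ A ∧ x ∈ s(u, v)) = ∅ := by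
      ext x
      simp only [mem_filter, mem_univ, true_and, Sym2.mem_iff, notMem_empty, iff_false]
      rintro ⟨h, rfl | rfl⟩
      · exact hu h
      · exact hv h
    rw [h1, card_empty, if_neg (by rw [hcross]; tauto)]
    rfl

/-- parity of the sum of degrees over `A` -/
theorem cut_parity {V : Type} [Fintype V] (G : SimpleGraph V) (F : Set (Sym2 V))
    (hF : F ⊆ G.edgeSet) (A : Set V) :
    Even (∑ v ∈ (univ : Finset V).filter (fun v => v ∈ A), ({e | e ∈ F ∧ v ∈ e} : Set (Sym2 V)).ncard) ↔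
      Even ({e | e ∈ F ∧ Cross A e} : Set (Sym2 V)).ncard := by
  have hdeg : ∀ v, ({e | e ∈ F ∧ v ∈ e} : Set (Sym2 V)).ncard =
      ((univ : Finset (Sym2 V)).filter (fun e => e ∈ F ∧ v ∈ e)).card := by
    intro v
    rw [← Set.ncard_coe_finset]
    congr 1
    ext e
    simp
  have hcr : ({e | e ∈ F ∧ Cross A e} : Set (Sym2 V)).ncard =
      ((univ : Finset (Sym2 V)).filter (fun e => e ∈ F ∧ Cross A e)).card := by
    rw [← Set.ncard_coe_finset]
    congr 1
    ext e
    simp
  rw [hcr, sum_congr rfl fun v _ => hdeg v]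
  rw [← ZMod.natCast_eq_zero_iff_even, ← ZMod.natCast_eq_zero_iff_even]
  have key : ((∑ v ∈ (univ : Finset V).filter (fun v => v ∈ A),
      ((univ : Finset (Sym2 V)).filter (fun e => e ∈ F ∧ v ∈ e)).card : ℕ) : ZMod 2) =
      (((univ : Finset (Sym2 V)).filter (fun e => e ∈ F ∧ Cross A e)).card : ZMod 2) := by
    have e1 : ∑ v ∈ (univ : Finset V).filter (fun v => v ∈ A),
        ((univ : Finset (Sym2 V)).filter (fun e => e ∈ F ∧ v ∈ e)).card =
        ∑ e ∈ (univ : Finset (Sym2 V)).filter (fun e => e ∈ F),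
          ((univ : Finset V).filter (fun x => x ∈ A ∧ x ∈ e)).card := by
      have := sum_card_bipartiteAbove_eq_sum_card_bipartiteBelow
        (s := (univ : Finset V).filter (fun v => v ∈ A))
        (t := (univ : Finset (Sym2 V)).filter (fun e => e ∈ F)) (fun v e => v ∈ e)
      simp only [bipartiteAbove, bipartiteBelow, filter_filter] at this
      exact this
    rw [e1]
    push_cast
    have e2 : ∀ e ∈ (univ : Finset (Sym2 V)).filter (fun e => e ∈ F),
        (((univ : Finset V).filter (fun x => x ∈ A ∧ x ∈ e)).card : ZMod 2) =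
          if Cross A e then 1 else 0 := by
      intro e he
      have heF : e ∈ F := (mem_filter.1 he).2
      have heG := hF heF
      induction e using Sym2.ind with
      | _ u v =>
        exact card_mem_cross A u v (SimpleGraph.mem_edgeSet G |>.1 heG).ne
    rw [sum_congr rfl e2, sum_ite, filter_filter]
    simp
  rw [key]

/-- the lift of the edges of the minor -/
theorem exists_lift {V V' : Type} {G : SimpleGraph V} {H : SimpleGraph V'}
    {φ : V → Option V'} (hM : MinorMap G H φ) :
    ∃ g : Sym2 V' → Sym2 V, ∀ f ∈ H.edgeSet, ∃ a b u v, f = s(a, b) ∧ a ≠ b ∧ g f = s(u, v) ∧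
      φ u = some a ∧ φ v = some b ∧ G.Adj u v := by
  have : ∀ f : Sym2 V', ∃ e : Sym2 V, f ∈ H.edgeSet → ∃ a b u v, f = s(a, b) ∧ a ≠ b ∧
      e = s(u, v) ∧ φ u = some a ∧ φ v = some b ∧ G.Adj u v := by
    intro f
    induction f using Sym2.ind with
    | _ a b =>
      by_cases h : s(a, b) ∈ H.edgeSet
      · have hab : H.Adj a b := (SimpleGraph.mem_edgeSet H).1 h
        obtain ⟨u, v, hu, hv, huv⟩ := hM.adj a b hab
        exact ⟨s(u, v), fun _ => ⟨a, b, u, v, rfl, hab.ne, rfl, hu, hv, huv⟩⟩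
      · have : Nonempty V := by
          obtain ⟨x⟩ := (hM.conn a).nonempty
          exact ⟨x.1⟩
        obtain ⟨x⟩ := this
        exact ⟨s(x, x), fun h' => absurd h' h⟩
  choose g hg using this
  exact ⟨g, hg⟩

theorem dminor (hT : TjoinStatement) : DualMinorStatement := by
  intro V V' _ _ G H φ hG hM
  obtain ⟨W, hW, ends, hD⟩ := hG
  let : Fintype V := Fintype.ofFinite V
  let : Fintype V' := Fintype.ofFinite V'
  obtain ⟨g, hg⟩ := exists_lift hM
  -- basic facts on the lift
  have hgG : ∀ f ∈ H.edgeSet, g f ∈ G.edgeSet := by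
    intro f hf
    obtain ⟨a, b, u, v, -, -, h, -, -, huv⟩ := hg f hf
    rw [h]
    exact (SimpleGraph.mem_edgeSet G).2 huv
  have hginj : ∀ f ∈ H.edgeSet, ∀ f' ∈ H.edgeSet, g f = g f' → f = f' := by
    intro f hf f' hf' hff
    obtain ⟨a, b, u, v, hab, -, h, hu, hv, -⟩ := hg f hf
    obtain ⟨a', b', u', v', hab', -, h', hu', hv', -⟩ := hg f' hf'
    rw [hab, hab']
    rw [h, h'] at hff
    rcases Sym2.eq_iff.1 hff with ⟨rfl, rfl⟩ | ⟨rfl, rfl⟩
    · rw [hu] at hu'
      rw [hv] at hv'
      rw [Option.some_injective _ hu', Option.some_injective _ hv']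
    · rw [hu] at hv'
      rw [hv] at hu'
      rw [Option.some_injective _ hu', Option.some_injective _ hv']
      exact Sym2.eq_swap
  let fib : V' → Set V := fun a => {v | φ v = some a}
  have hcross : ∀ f ∈ H.edgeSet, ∀ a, Cross (fib a) (g f) ↔ a ∈ f := by
    intro f hf a
    obtain ⟨a', b', u, v, hab, hne, h, hu, hv, -⟩ := hg f hf
    rw [h, hab, Sym2.mem_iff]
    constructor
    · rintro ⟨x, y, hxy, hx, hy⟩
      rcases Sym2.eq_iff.1 hxy with ⟨rfl, rfl⟩ | ⟨rfl, rfl⟩
      · left
        have : φ u = some a := hx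
        rw [hu] at this
        exact (Option.some_injective _ this).symm
      · right
        have : φ v = some a := hx
        rw [hv] at this
        exact (Option.some_injective _ this).symm
    · rintro (rfl | rfl)
      · refine ⟨u, v, rfl, hu, ?_⟩
        intro hv'
        have : φ v = some a := hv'
        rw [hv] at this
        exact hne (Option.some_injective _ this).symm
      · refine ⟨v, u, Sym2.eq_swap, hv, ?_⟩
        intro hu'
        have : φ u = some a := hu'
        rw [hu] at this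
        exact hne (Option.some_injective _ this)
  -- inner edges
  let Inner : Set (Sym2 V) := {e | ∃ a u v, e = s(u, v) ∧ φ u = some a ∧ φ v = some a}
  have hginner : ∀ f ∈ H.edgeSet, g f ∉ Inner := by
    rintro f hf ⟨a, u, v, h, hu, hv⟩
    obtain ⟨a', b', u', v', hab, hne, h', hu', hv', -⟩ := hg f hf
    rw [h] at h'
    rcases Sym2.eq_iff.1 h' with ⟨rfl, rfl⟩ | ⟨rfl, rfl⟩
    · rw [hu] at hu'
      rw [hv] at hv'
      exact hne (Option.some_injective _ (hu'.symm.trans hv'))
    · rw [hu] at hv'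
      rw [hv] at hu'
      exact hne (Option.some_injective _ (hu'.symm.trans hv'))
  have hinnercross : ∀ e ∈ Inner, ∀ a, ¬ Cross (fib a) e := by
    rintro e ⟨a, u, v, rfl, hu, hv⟩ a' ⟨x, y, hxy, hx, hy⟩
    rcases Sym2.eq_iff.1 hxy with ⟨rfl, rfl⟩ | ⟨rfl, rfl⟩
    · have hx' : φ u = some a' := hx
      rw [hu] at hx'
      have : φ v = some a' := by rw [hv, hx']
      exact hy this
    · have hx' : φ v = some a' := hx
      rw [hv] at hx'
      have : φ u = some a' := by rw [hu, hx']
      exact hy this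
  let Del : Set (Sym2 V) := {e | e ∈ G.edgeSet ∧ e ∉ Inner ∧ ¬ ∃ f ∈ H.edgeSet, e = g f}
  let R : W → W → Prop := fun w w' => ∃ e ∈ Del, w = (ends e).1 ∧ w' = (ends e).2
  let W' := Quot R
  let ends' : Sym2 V' → W' × W' := fun f => (Quot.mk R (ends (g f)).1, Quot.mk R (ends (g f)).2)
  have hWfin : Finite W' := Quot.finite _
  -- counting lifts
  have hcount : ∀ (F : Set (Sym2 V')) (X : Set (Sym2 V)) (a : V'), F ⊆ H.edgeSet →
      (∀ f ∈ H.edgeSet, (f ∈ F ↔ g f ∈ X)) →
      (∀ e ∈ X, Cross (fib a) e → ∃ f ∈ H.edgeSet, e = g f) →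
      ({e | e ∈ X ∧ Cross (fib a) e} : Set (Sym2 V)).ncard =
        ({f | f ∈ F ∧ a ∈ f} : Set (Sym2 V')).ncard := by
    intro F X a hF h1 h2
    have himg : ({e | e ∈ X ∧ Cross (fib a) e} : Set (Sym2 V)) =
        g '' {f | f ∈ F ∧ a ∈ f} := by
      ext e
      simp only [Set.mem_setOf_eq, Set.mem_image]
      constructor
      · rintro ⟨he, hc⟩
        obtain ⟨f, hf, rfl⟩ := h2 e he hc
        exact ⟨f, ⟨(h1 f hf).2 he, (hcross f hf a).1 hc⟩, rfl⟩
      · rintro ⟨f, ⟨hf, ha⟩, rfl⟩
        exact ⟨(h1 f (hF hf)).1 hf, (hcross f (hF hf) a).2 ha⟩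
    rw [himg]
    exact Set.ncard_image_of_injOn (fun f hf f' hf' h => hginj f (hF hf.1) f' (hF hf'.1) h)
  refine ⟨W', hWfin, ends', ?_⟩
  intro F
  constructor
  · rintro ⟨hF, heven⟩
    -- the set of odd vertices in each fibre
    let X0 : Set (Sym2 V) := g '' F
    have hX0G : X0 ⊆ G.edgeSet := by
      rintro e ⟨f, hf, rfl⟩
      exact hgG f (hF hf)
    let d0 : V → ℕ := fun v => ({e | e ∈ X0 ∧ v ∈ e} : Set (Sym2 V)).ncard
    have hTeven : ∀ a : V', Even ((univ : Finset V).filter (fun v => v ∈ fib a ∧ Odd (d0 v))).card := by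
      intro a
      have h1 := cut_parity G X0 hX0G (fib a)
      rw [hcount F X0 a hF (fun f hf => ⟨fun h => ⟨f, h, rfl⟩, fun ⟨f', hf', h⟩ => by
          rw [← hginj f' (hF hf') f hf h]; exact hf'⟩)
        (fun e ⟨f, hf, h⟩ _ => ⟨f, hF hf, h.symm⟩)] at h1
      have h2 := h1.2 (heven a)
      rw [even_sum_iff_even_card_odd] at h2
      rw [filter_filter] at h2
      convert h2
    -- T-joins inside the fibres
    have hjoin : ∀ a : V', ∃ J : Set (Sym2 V), J ⊆ G.edgeSet ∧
        (∀ e ∈ J, ∃ u v, e = s(u, v) ∧ φ u = some a ∧ φ v = some a) ∧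
        ∀ v, φ v = some a → (Odd ({e | e ∈ J ∧ v ∈ e} : Set (Sym2 V)).ncard ↔ Odd (d0 v)) := by
      intro a
      let T : Set {v | φ v = some a} := {v | Odd (d0 v.1)}
      have hT' : Even T.ncard := by
        have h1 : T.ncard = ((univ : Finset V).filter (fun v => v ∈ fib a ∧ Odd (d0 v))).card := by
          rw [← Set.ncard_coe_finset, ← Set.ncard_image_of_injective T Subtype.val_injective]
          congr 1
          ext v
          simp only [Set.mem_image, coe_filter, mem_univ, true_and, Set.mem_setOf_eq]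
          constructor
          · rintro ⟨x, hx, rfl⟩
            exact ⟨x.2, hx⟩
          · rintro ⟨h1, h2⟩
            exact ⟨⟨v, h1⟩, h2, rfl⟩
        rw [h1]
        exact hTeven a
      obtain ⟨J, hJ1, hJ2⟩ := hT _ (G.induce {v | φ v = some a}) (hM.conn a) T hT'
      refine ⟨Sym2.map Subtype.val '' J, ?_, ?_, ?_⟩
      · rintro e ⟨j, hj, rfl⟩
        have hjG := hJ1 hj
        induction j using Sym2.ind with
        | _ x y =>
          have hxy : (G.induce {v | φ v = some a}).Adj x y := (SimpleGraph.mem_edgeSet _).1 hjG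
          exact (SimpleGraph.mem_edgeSet G).2 hxy
      · rintro e ⟨j, hj, rfl⟩
        induction j using Sym2.ind with
        | _ x y => exact ⟨x.1, y.1, rfl, x.2, y.2⟩
      · intro v hv
        have h1 := hJ2 ⟨v, hv⟩
        have h2 : ({e | e ∈ Sym2.map Subtype.val '' J ∧ v ∈ e} : Set (Sym2 V)) =
            Sym2.map Subtype.val '' {j | j ∈ J ∧ (⟨v, hv⟩ : {v | φ v = some a}) ∈ j} := by
          ext e
          simp only [Set.mem_setOf_eq, Set.mem_image]
          constructor
          · rintro ⟨⟨j, hj, rfl⟩, hv'⟩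
            refine ⟨j, ⟨hj, ?_⟩, rfl⟩
            obtain ⟨x, hx, hxv⟩ := Sym2.mem_map.1 hv'
            have : x = ⟨v, hv⟩ := Subtype.ext hxv
            rw [← this]
            exact hx
          · rintro ⟨j, ⟨hj, hv'⟩, rfl⟩
            exact ⟨⟨j, hj, rfl⟩, Sym2.mem_map.2 ⟨⟨v, hv⟩, hv', rfl⟩⟩
        rw [h2, Set.ncard_image_of_injective _ (Sym2.map.injective Subtype.val_injective), h1]
        rfl
    choose J hJ1 hJ2 hJ3 using hjoin
    let X : Set (Sym2 V) := X0 ∪ ⋃ a, J a
    have hX : X ⊆ G.edgeSet := by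
      rintro e (he | he)
      · exact hX0G he
      · obtain ⟨a, ha⟩ := Set.mem_iUnion.1 he
        exact hJ1 a ha
    have hJinner : ∀ a, J a ⊆ Inner := by
      intro a e he
      obtain ⟨u, v, h, hu, hv⟩ := hJ2 a e he
      exact ⟨a, u, v, h, hu, hv⟩
    have hgX : ∀ f ∈ H.edgeSet, (f ∈ F ↔ g f ∈ X) := by
      intro f hf
      constructor
      · intro h
        exact Or.inl ⟨f, h, rfl⟩
      · rintro (⟨f', hf', h⟩ | h)
        · rw [← hginj f' (hF hf') f hf h]
          exact hf'
        · obtain ⟨a, ha⟩ := Set.mem_iUnion.1 h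
          exact absurd (hJinner a ha) (hginner f hf)
    have hXeven : EvenSet G X := by
      refine ⟨hX, fun v => ?_⟩
      cases hv : φ v with
      | none =>
        have : ({e | e ∈ X ∧ v ∈ e} : Set (Sym2 V)) = ∅ := by
          ext e
          simp only [Set.mem_setOf_eq, Set.mem_empty_iff_false, iff_false]
          rintro ⟨he | he, hve⟩
          · obtain ⟨f, hf, rfl⟩ := he
            obtain ⟨a, b, x, y, -, -, h, hx, hy, -⟩ := hg f (hF hf)
            rw [h, Sym2.mem_iff] at hve
            rcases hve with rfl | rfl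
            · rw [hv] at hx; exact absurd hx (by simp)
            · rw [hv] at hy; exact absurd hy (by simp)
          · obtain ⟨a, ha⟩ := Set.mem_iUnion.1 he
            obtain ⟨x, y, h, hx, hy⟩ := hJ2 a e ha
            rw [h, Sym2.mem_iff] at hve
            rcases hve with rfl | rfl
            · rw [hv] at hx; exact absurd hx (by simp)
            · rw [hv] at hy; exact absurd hy (by simp)
        rw [this]
        simp
      | some a =>
        have h1 : ({e | e ∈ X ∧ v ∈ e} : Set (Sym2 V)) =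
            {e | e ∈ X0 ∧ v ∈ e} ∪ {e | e ∈ J a ∧ v ∈ e} := by
          ext e
          simp only [Set.mem_setOf_eq, Set.mem_union]
          constructor
          · rintro ⟨he | he, hve⟩
            · exact Or.inl ⟨he, hve⟩
            · obtain ⟨a', ha'⟩ := Set.mem_iUnion.1 he
              obtain ⟨x, y, h, hx, hy⟩ := hJ2 a' e ha'
              have haa : a' = a := by
                have hve' := hve
                rw [h, Sym2.mem_iff] at hve'
                rcases hve' with rfl | rfl
                · rw [hv] at hx; exact (Option.some_injective _ hx).symm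
                · rw [hv] at hy; exact (Option.some_injective _ hy).symm
              rw [haa] at ha'
              exact Or.inr ⟨ha', hve⟩
          · rintro (⟨he, hve⟩ | ⟨he, hve⟩)
            · exact ⟨Or.inl he, hve⟩
            · exact ⟨Or.inr (Set.mem_iUnion.2 ⟨a, he⟩), hve⟩
        have hdisj : Disjoint ({e | e ∈ X0 ∧ v ∈ e} : Set (Sym2 V)) {e | e ∈ J a ∧ v ∈ e} := by
          rw [Set.disjoint_left]
          rintro e ⟨⟨f, hf, rfl⟩, -⟩ ⟨he, -⟩
          exact hginner f (hF hf) (hJinner a he)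
        rw [h1, Set.ncard_union_eq hdisj (Set.toFinite _) (Set.toFinite _), Nat.even_add]
        have h2 := hJ3 a v hv
        rw [← Nat.not_odd_iff_even, ← Nat.not_odd_iff_even, h2]
    obtain ⟨S, hS⟩ := (hD X).1 hXeven
    -- S is a union of classes
    have hSR : ∀ w w', R w w' → (w ∈ S ↔ w' ∈ S) := by
      rintro w w' ⟨e, ⟨he1, he2, he3⟩, rfl, rfl⟩
      by_contra hcon
      have : e ∈ X := (hS e).2 ⟨he1, hcon⟩
      rcases this with ⟨f, hf, h⟩ | h
      · exact he3 ⟨f, hF hf, h.symm⟩
      · obtain ⟨a, ha⟩ := Set.mem_iUnion.1 h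
        exact he2 (hJinner a ha)
    refine ⟨{c | Quot.lift (fun w => w ∈ S) (fun w w' h => propext (hSR w w' h)) c}, ?_⟩
    intro f
    constructor
    · intro hf
      refine ⟨hF hf, ?_⟩
      exact ((hS (g f)).1 ((hgX f (hF hf)).1 hf)).2
    · rintro ⟨hf, hne⟩
      refine (hgX f hf).2 ((hS (g f)).2 ⟨hgG f hf, hne⟩)
  · rintro ⟨S', hS'⟩
    let S : Set W := {w | Quot.mk R w ∈ S'}
    let X : Set (Sym2 V) := {e | e ∈ G.edgeSet ∧ ¬ ((ends e).1 ∈ S ↔ (ends e).2 ∈ S)}
    have hXeven : EvenSet G X := (hD X).2 ⟨S, fun e => Iff.rfl⟩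
    have hF : F ⊆ H.edgeSet := fun f hf => ((hS' f).1 hf).1
    refine ⟨hF, fun a => ?_⟩
    have h1 := (cut_parity G X hXeven.1 (fib a)).1 (by
      refine Finset.even_sum _ (fun v _ => hXeven.2 v))
    rw [hcount F X a hF (fun f hf => ?_) (fun e he hc => ?_)] at h1
    · exact h1
    · constructor
      · intro h
        exact ⟨hgG f hf, ((hS' f).1 h).2⟩
      · rintro ⟨-, h⟩
        exact (hS' f).2 ⟨hf, h⟩
    · by_contra hcon
      have hdel : e ∈ Del := ⟨he.1, fun hin => hinnercross e hin a hc, hcon⟩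
      have : Quot.mk R (ends e).1 = Quot.mk R (ends e).2 := Quot.sound ⟨e, hdel, rfl, rfl⟩
      apply he.2
      change Quot.mk R (ends e).1 ∈ S' ↔ Quot.mk R (ends e).2 ∈ S'
      rw [this]

end StrongArb.H59
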