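import Pool.Agent.Lib.MP_39c2b7_co.Interfaces

/-!
Module TOTAL, part 1: the arc of neighbours of a boundary vertex inside the region.
-/

namespace StrongArb.H59

open Classical

theorem mod_small' {n x : ℕ} (h : x < 2 * n) : x % n = if x < n then x else x - n := by
  split_ifs with h1
  · exact Nat.mod_eq_of_lt h1
  · rw [Nat.mod_eq_sub_mod (by omega), Nat.mod_eq_of_lt (by omega)]

theorem cycAdj_iff' {n i j : ℕ} (hi : i < n) (hj : j < n) :
    CycAdj n i j ↔ (j = i + 1 ∨ i = j + 1 ∨ (i + 1 = n ∧ j = 0) ∨ (j + 1 = n ∧ i = 0)) := by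
  unfold CycAdj
  rw [mod_small' (n := n) (x := i + 1) (by omega), mod_small' (n := n) (x := j + 1) (by omega)]
  split_ifs <;> omega

variable {V : Type} {G : SimpleGraph V}

/-- rotate the link so that it starts with `a`, and split it at `b` -/
theorem link_split (api : LinkApi) {z a b : V} (hl : ∃ l, IsLink G z l) (hza : G.Adj z a)
    (hzb : G.Adj z b) (hab : a ≠ b) : ∃ p q, IsLink G z (a :: (p ++ b :: q)) := by
  obtain ⟨l, hl⟩ := hl
  have ha : a ∈ l := (hl.mem a).2 hza
  obtain ⟨l1, l2, rfl⟩ := List.append_of_mem ha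
  have h1 := api.rotate V G z _ l1.length hl
  rw [List.rotate_append_length_eq] at h1
  have hb : b ∈ l2 ++ l1 := by
    have := (h1.mem b).2 hzb
    simp only [List.cons_append, List.mem_cons] at this
    rcases this with h | h
    · exact absurd h.symm hab
    · exact h
  obtain ⟨p, q, hpq⟩ := List.append_of_mem hb
  refine ⟨p, q, ?_⟩
  rw [← hpq]
  exact h1

/-- the other direction of the link -/
theorem link_swap (api : LinkApi) {z a b : V} {p q : List V} (h : IsLink G z (a :: (p ++ b :: q))) :
    IsLink G z (a :: (q.reverse ++ b :: p.reverse)) := by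
  have h1 := api.reverse V G z _ h
  have e1 : (a :: (p ++ b :: q)).reverse = (q.reverse ++ b :: p.reverse) ++ [a] := by simp
  rw [e1] at h1
  have h2 := api.rotate V G z _ (q.reverse ++ b :: p.reverse).length h1
  rw [List.rotate_append_length_eq] at h2
  exact h2

theorem link_chain {z : V} {l : List V} (h : IsLink G z l) : l.IsChain G.Adj := by
  rw [List.isChain_iff_getElem]
  intro i hi
  rw [h.adj, cycAdj_iff' (by omega) (by omega)]
  omega

theorem all_or_none {X : Set V} {C : List V}
    (hnbr : ∀ x ∈ X, ∀ y, G.Adj x y → y ∈ X ∨ y ∈ C) :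
    ∀ p : List V, p.IsChain G.Adj → (∀ x ∈ p, x ∉ C) → (∀ x ∈ p, x ∈ X) ∨ (∀ x ∈ p, x ∉ X)
  | [], _, _ => Or.inl (by simp)
  | [x], _, _ => by
    by_cases h : x ∈ X
    · exact Or.inl (by simpa using h)
    · exact Or.inr (by simpa using h)
  | x :: y :: p, hc, hC => by
    rw [List.isChain_cons_cons] at hc
    have ih := all_or_none hnbr (y :: p) hc.2 (fun t ht => hC t (List.mem_cons_of_mem _ ht))
    have hxC : x ∉ C := hC x (by simp)
    have hyC : y ∉ C := hC y (by simp)
    rcases ih with ih | ih
    · left
      intro t ht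
      rcases List.mem_cons.1 ht with rfl | ht
      · rcases hnbr y (ih y (by simp)) t hc.1.symm with h | h
        · exact h
        · exact absurd h hxC
      · exact ih t ht
    · right
      intro t ht
      rcases List.mem_cons.1 ht with rfl | ht
      · intro h
        rcases hnbr t h y hc.1 with h' | h'
        · exact ih y (by simp) h'
        · exact hyC h'
      · exact ih t ht

/-- The neighbours of `z` in `X` form an arc from `a` to `b`. -/
theorem arc (api : LinkApi) {C : List V} {X : Set V} (hR : Region G C X) {z a b : V}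
    (hz : z ∈ C) (ha : a ∈ C) (hb : b ∈ C) (hza : G.Adj z a) (hzb : G.Adj z b) (hab : a ≠ b)
    (honly : ∀ y ∈ C, G.Adj z y → y = a ∨ y = b) (hnab : ¬ G.Adj a b)
    (hl : ∃ l, IsLink G z l) :
    ∃ (x y : V) (m : List V), (x :: (m ++ [y])).Nodup ∧
      (∀ t, t ∈ x :: (m ++ [y]) ↔ t ∈ X ∧ G.Adj z t) ∧ (x :: (m ++ [y])).IsChain G.Adj ∧
      G.Adj x a ∧ G.Adj y b ∧ (∀ t ∈ X, G.Adj t z → G.Adj t a → t = x) ∧
      dgIn G X z = m.length + 2 := by
  -- the arc in X comes first
  have key : ∃ p q, IsLink G z (a :: (p ++ b :: q)) ∧ (∀ x ∈ p, x ∈ X) ∧ (∀ x ∈ q, x ∉ X) := by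
    obtain ⟨p, q, h⟩ := link_split api hl hza hzb hab
    have hnd := h.nodup
    have hmem : ∀ x, G.Adj z x ↔ x = a ∨ x ∈ p ∨ x = b ∨ x ∈ q := by
      intro x
      rw [← h.mem x]
      simp only [List.mem_cons, List.mem_append]
    have hpC : ∀ x ∈ p, x ∉ C := by
      intro x hx hxC
      rcases honly x hxC ((hmem x).2 (Or.inr (Or.inl hx))) with rfl | rfl
      · rw [List.nodup_cons] at hnd
        exact hnd.1 (by simp [hx])
      · rw [List.nodup_cons, List.nodup_append] at hnd
        exact hnd.2.2.2 x hx x (by simp) rfl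
    have hqC : ∀ x ∈ q, x ∉ C := by
      intro x hx hxC
      rcases honly x hxC ((hmem x).2 (Or.inr (Or.inr (Or.inr hx)))) with rfl | rfl
      · rw [List.nodup_cons] at hnd
        exact hnd.1 (by simp [hx])
      · rw [List.nodup_cons, List.nodup_append, List.nodup_cons] at hnd
        exact hnd.2.2.1.1 hx
    have hch := link_chain h
    have hch2 : (p ++ b :: q).IsChain G.Adj := by
      have := hch.tail
      simpa using this
    have hchp : p.IsChain G.Adj := hch2.left_of_append
    have hchq : q.IsChain G.Adj := by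
      have := (hch2.right_of_append).tail
      simpa using this
    obtain ⟨y0, hy0, hy0X, hy0C⟩ := hR.out z hz
    have hin := hR.inner z hz
    have hex : ∃ x0 ∈ X, G.Adj z x0 := by
      by_contra hcon
      have : ({x | x ∈ X ∧ G.Adj z x} : Set V) = ∅ := by
        ext x
        simp only [Set.mem_setOf_eq, Set.mem_empty_iff_false, iff_false, not_and]
        exact fun hx hzx => hcon ⟨x, hx, hzx⟩
      unfold dgIn at hin
      rw [this, Set.ncard_empty] at hin
      omega
    obtain ⟨x0, hx0X, hx0⟩ := hex
    have hy0' : y0 ∈ p ∨ y0 ∈ q := by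
      rcases (hmem y0).1 hy0 with rfl | h | rfl | h
      · exact absurd ha hy0C
      · exact Or.inl h
      · exact absurd hb hy0C
      · exact Or.inr h
    have hx0' : x0 ∈ p ∨ x0 ∈ q := by
      rcases (hmem x0).1 hx0 with rfl | h | rfl | h
      · exact absurd ha (hR.disj _ hx0X)
      · exact Or.inl h
      · exact absurd hb (hR.disj _ hx0X)
      · exact Or.inr h
    rcases all_or_none hR.nbr p hchp hpC with hp | hp
    · rcases all_or_none hR.nbr q hchq hqC with hq | hq
      · rcases hy0' with h' | h'
        · exact absurd (hp _ h') hy0X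
        · exact absurd (hq _ h') hy0X
      · exact ⟨p, q, h, hp, hq⟩
    · rcases all_or_none hR.nbr q hchq hqC with hq | hq
      · exact ⟨q.reverse, p.reverse, link_swap api h, fun x hx => hq x (List.mem_reverse.1 hx),
          fun x hx => hp x (List.mem_reverse.1 hx)⟩
      · rcases hx0' with h' | h'
        · exact absurd hx0X (hp _ h')
        · exact absurd hx0X (hq _ h')
  obtain ⟨p, q, h, hp, hq⟩ := key
  have hnd := h.nodup
  have hmem : ∀ x, G.Adj z x ↔ x = a ∨ x ∈ p ∨ x = b ∨ x ∈ q := by
    intro x
    rw [← h.mem x]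
    simp only [List.mem_cons, List.mem_append]
  have hmemp : ∀ t, t ∈ p ↔ t ∈ X ∧ G.Adj z t := by
    intro t
    constructor
    · intro ht
      exact ⟨hp t ht, (hmem t).2 (Or.inr (Or.inl ht))⟩
    · rintro ⟨htX, ht⟩
      rcases (hmem t).1 ht with rfl | h | rfl | h
      · exact absurd ha (hR.disj _ htX)
      · exact h
      · exact absurd hb (hR.disj _ htX)
      · exact absurd htX (hq _ h)
  have hpnd : p.Nodup := by
    rw [List.nodup_cons, List.nodup_append] at hnd
    exact hnd.2.1
  have hlen : dgIn G X z = p.length := by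
    unfold dgIn
    have : ({x | x ∈ X ∧ G.Adj z x} : Set V) = (p.toFinset : Set V) := by
      ext t
      simp only [Set.mem_setOf_eq, List.coe_toFinset]
      exact (hmemp t).symm
    rw [this, Set.ncard_coe_finset, List.toFinset_card_of_nodup hpnd]
  have hin := hR.inner z hz
  rw [hlen] at hin
  obtain ⟨x, p', rfl⟩ : ∃ x p', p = x :: p' := by
    cases p with
    | nil => simp at hin
    | cons x p' => exact ⟨x, p', rfl⟩
  obtain ⟨m, y, rfl⟩ : ∃ m y, p' = m ++ [y] := by
    rcases List.eq_nil_or_concat p' with h' | ⟨m, y, h'⟩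
    · rw [h'] at hin
      simp at hin
    · exact ⟨m, y, by rw [h', List.concat_eq_append]⟩
  have hch := link_chain h
  refine ⟨x, y, m, hpnd, hmemp, ?_, ?_, ?_, ?_, ?_⟩
  · have h1 := hch.tail
    simp only [List.tail_cons] at h1
    exact h1.left_of_append
  · simp only [List.cons_append, List.isChain_cons_cons] at hch
    exact hch.1.symm
  · have h1 : (([a, x] ++ m) ++ (y :: b :: q)).IsChain G.Adj := by
      have e : ([a, x] ++ m) ++ (y :: b :: q) = a :: (x :: (m ++ [y]) ++ b :: q) := by simp
      rw [e]
      exact hch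
    have h2 := h1.right_of_append
    rw [List.isChain_cons_cons] at h2
    exact h2.1
  · intro t htX htz hta
    have htp := (hmemp t).2 ⟨htX, htz.symm⟩
    obtain ⟨i, hi, rfl⟩ := List.getElem_of_mem htp
    have hL : (x :: (m ++ [y]))[i] = (a :: ((x :: (m ++ [y])) ++ b :: q))[i + 1]'(by
        simp only [List.length_cons, List.length_append] at hi ⊢; omega) := by
      rw [List.getElem_cons_succ, List.getElem_append_left]
    have hL0 : a = (a :: ((x :: (m ++ [y])) ++ b :: q))[0]'(by simp) := by simp
    rw [hL] at hta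
    have hta' : G.Adj ((a :: ((x :: (m ++ [y])) ++ b :: q))[i + 1]'(by
        simp only [List.length_cons, List.length_append] at hi ⊢; omega))
        ((a :: ((x :: (m ++ [y])) ++ b :: q))[0]'(by simp)) := by
      rw [← hL0]
      exact hta
    rw [h.adj, cycAdj_iff' (by simp only [List.length_cons, List.length_append] at hi ⊢; omega)
      (by simp)] at hta'
    simp only [List.length_cons, List.length_append] at hi hta'
    have hi0 : i = 0 := by omega
    subst hi0
    simp
  · rw [hlen]
    simp
    
end StrongArb.H59
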