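import Pool.Agent.Lib.MP_39c2b7_co.Interfaces2
import Pool.Agent.Lib.MP_39c2b7_co.H59.Arc

/-!
Module TOTAL: the boundary argument of the discharging.
-/

namespace StrongArb.H59

open Classical Finset

theorem chain_bound {V : Type} (g : V → ℤ) (M : ℤ) (y : V) :
    ∀ (m : List V) (x : V) (P : ℤ), P ≤ g x →
      (x :: (m ++ [y])).IsChain (fun s t => g s + g t ≤ 2 * M) →
      P + (m.map (fun t => 2 * g t - 2 * M)).sum + g y ≤ 2 * M
  | [], x, P, hP, hc => by
    simp only [List.nil_append, List.isChain_cons_cons] at hc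
    simp only [List.map_nil, List.sum_nil]
    linarith [hc.1]
  | t :: m, x, P, hP, hc => by
    simp only [List.cons_append, List.isChain_cons_cons] at hc
    have ih := chain_bound g M y m t (P + 2 * g t - 2 * M) (by linarith [hc.1]) hc.2
    simp only [List.map_cons, List.sum_cons]
    linarith

theorem sum_map_range (n : ℕ) (f : ℕ → ℤ) : ((List.range n).map f).sum = ∑ i ∈ range n, f i := rfl

theorem sum_shift (D : ℕ) (f : ℕ → ℤ) (h : f D = f 0) :
    ∑ i ∈ range D, f (i + 1) = ∑ i ∈ range D, f i := by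
  have h1 := sum_range_succ' f D
  have h2 := sum_range_succ f D
  rw [h2, h] at h1
  linarith

theorem total (api : LinkApi) : TotalStatement := by
  intro V G C X hG hR M w hM h1 h4 h5 cap4 cap5 hub
  have hfin := hG.fin
  let : Fintype V := Fintype.ofFinite V
  let XF : Finset V := univ.filter (fun x => x ∈ X)
  have hXF : ∀ x, x ∈ XF ↔ x ∈ X := fun x => by simp [XF]
  have hM' : (0 : ℤ) < M := by exact_mod_cast hM
  -- totals
  let o : V → ℤ := fun x => ∑ h, (w x h : ℤ)
  let r : V → ℤ := fun x => ∑ t, (w t x : ℤ)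
  have hfo : ∀ x, ((∑ᶠ h, w x h : ℕ) : ℤ) = o x := by
    intro x
    rw [finsum_eq_sum_of_fintype]
    push_cast
    rfl
  have hfr : ∀ x, ((∑ᶠ t, w t x : ℕ) : ℤ) = r x := by
    intro x
    rw [finsum_eq_sum_of_fintype]
    push_cast
    rfl
  have hr0 : ∀ x ∈ X, dg G x < 7 → r x = 0 := by
    intro x hx hd
    refine sum_eq_zero fun t _ => ?_
    by_contra hne
    have hne' : w t x ≠ 0 := by exact_mod_cast hne
    rcases (h1 t x hne').2.2.2 with h | h
    · exact hR.disj x hx h
    · omega
  have hr1 : ∀ x, x ∉ X → x ∉ C → r x = 0 := by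
    intro x hx hC
    refine sum_eq_zero fun t _ => ?_
    by_contra hne
    have hne' : w t x ≠ 0 := by exact_mod_cast hne
    rcases (h1 t x hne').2.2.2 with h | h
    · exact hC h
    · exact hx h.1
  have ho0 : ∀ x, x ∉ X → o x = 0 := by
    intro x hx
    refine sum_eq_zero fun t _ => ?_
    by_contra hne
    have hne' : w x t ≠ 0 := by exact_mod_cast hne
    exact hx (h1 x t hne').1
  have hopos : ∀ x, 0 ≤ o x := fun x => sum_nonneg fun t _ => Int.natCast_nonneg _
  have hdg4 : ∀ x, 4 ≤ dg G x := by
    intro x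
    obtain ⟨l, hl⟩ := hG.link x
    rw [api.dg V G x l hl]
    exact hl.len
  have hvert : ∀ x ∈ X, (M : ℤ) * (6 - (dg G x : ℤ)) ≤ o x - r x := by
    intro x hx
    have hd := hdg4 x
    by_cases e4 : dg G x = 4
    · have a1 := h4 x hx e4
      have a2 : (2 * M : ℤ) ≤ o x := by rw [← hfo]; exact_mod_cast a1
      rw [hr0 x hx (by omega), e4]
      push_cast
      linarith
    · by_cases e5 : dg G x = 5
      · have a1 := h5 x hx e5
        have a2 : (M : ℤ) ≤ o x := by rw [← hfo]; exact_mod_cast a1
        rw [hr0 x hx (by omega), e5]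
        push_cast
        linarith
      · by_cases e6 : dg G x = 6
        · rw [hr0 x hx (by omega), e6]
          have := hopos x
          push_cast
          linarith
        · have e7 : 7 ≤ dg G x := by omega
          have a1 := hub x hx e7
          have a2 : r x ≤ M * ((dg G x : ℤ) - 6) := by
            rw [← hfr]
            have a3 : ((∑ᶠ t, w t x : ℕ) : ℤ) ≤ ((M * (dg G x - 6) : ℕ) : ℤ) := by exact_mod_cast a1
            rw [Nat.cast_mul, Nat.cast_sub (by omega)] at a3
            exact_mod_cast a3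
          have := hopos x
          linarith
  have hsumX : (M : ℤ) * ∑ x ∈ XF, (6 - (dg G x : ℤ)) ≤ ∑ z ∈ C.toFinset, r z := by
    have b1 : (M : ℤ) * ∑ x ∈ XF, (6 - (dg G x : ℤ)) ≤ ∑ x ∈ XF, (o x - r x) := by
      rw [mul_sum]
      exact sum_le_sum fun x hx => hvert x ((hXF x).1 hx)
    have b2 : ∑ x ∈ XF, o x = ∑ x, r x := by
      have e1 : ∑ x ∈ XF, o x = ∑ x, o x := by
        refine sum_subset (subset_univ _) fun x _ hx => ho0 x (fun h => hx ((hXF x).2 h))
      rw [e1]
      exact sum_comm
    have b3 : ∑ x, r x = ∑ x ∈ XF, r x + ∑ z ∈ C.toFinset, r z := by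
      rw [← sum_add_sum_compl XF r]
      congr 1
      symm
      refine sum_subset ?_ ?_
      · intro z hz
        rw [mem_compl, hXF]
        intro h
        exact hR.disj z h (List.mem_toFinset.1 hz)
      · intro z hz hz'
        rw [mem_compl, hXF] at hz
        exact hr1 z hz (fun h => hz' (List.mem_toFinset.2 h))
    have b0 : ∑ x ∈ XF, (o x - r x) = ∑ x ∈ XF, o x - ∑ x ∈ XF, r x := sum_sub_distrib _ _
    rw [b0, b2, b3] at b1
    linarith
  -- the boundary cycle
  have hD4 := hR.cyc.len
  have hD5 := hR.len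
  set D := C.length with hD
  have hDpos : 0 < D := by omega
  let c : ℕ → V := fun i => C[i % D]'(Nat.mod_lt _ hDpos)
  have hcmem : ∀ i, c i ∈ C := fun i => List.getElem_mem _
  have hcper : ∀ i, c (i + D) = c i := by
    intro i
    simp only [c, Nat.add_mod_right]
  have hCc : C = (List.range D).map c := by
    refine List.ext_getElem (by simp [hD]) ?_
    intro i hi hi'
    simp only [List.getElem_map, List.getElem_range, c]
    congr 1
    rw [Nat.mod_eq_of_lt]
    rw [← hD] at hi
    exact hi
  have hmod : ∀ i e, e ≤ D → (i + e) % D = if i % D + e < D then i % D + e else i % D + e - D := by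
    intro i e he
    have h1 : (i + e) % D = (i % D + e) % D := by rw [Nat.mod_add_mod]
    rw [h1]
    have h2 : i % D < D := Nat.mod_lt _ hDpos
    exact mod_small' (by omega)
  have hcadj : ∀ i j, G.Adj (c i) (c j) ↔ CycAdj D (i % D) (j % D) := by
    intro i j
    exact hR.cyc.adj _ _ _ _
  have hcinj : ∀ i j, c i = c j → i % D = j % D := by
    intro i j h
    exact (List.Nodup.getElem_inj_iff hR.cyc.nodup).1 h
  have hadj1 : ∀ i, G.Adj (c (i + 1)) (c i) := by
    intro i
    have hk : i % D < D := Nat.mod_lt _ hDpos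
    rw [hcadj, hmod i 1 (by omega), cycAdj_iff' (by split_ifs <;> omega) hk]
    split_ifs <;> omega
  have hsurj : ∀ y ∈ C, ∃ j, j < D ∧ c j = y := by
    intro y hy
    obtain ⟨j, hj, rfl⟩ := List.getElem_of_mem hy
    refine ⟨j, hj, ?_⟩
    simp only [c]
    congr 1
    exact Nat.mod_eq_of_lt hj
  have honly : ∀ i, ∀ y ∈ C, G.Adj (c (i + 1)) y → y = c i ∨ y = c (i + 2) := by
    intro i y hy hadj
    obtain ⟨j, hj, rfl⟩ := hsurj y hy
    have hk : i % D < D := Nat.mod_lt _ hDpos
    rw [hcadj, Nat.mod_eq_of_lt hj, cycAdj_iff' (Nat.mod_lt _ hDpos) hj] at hadj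
    have e1 := hmod i 1 (by omega)
    have e2 := hmod i 2 (by omega)
    have hc1 : ∀ a b, a % D = b % D → c a = c b := by
      intro a b h
      simp only [c]
      congr 1
    by_cases hji : j = i % D
    · left
      refine hc1 _ _ ?_
      rw [Nat.mod_eq_of_lt hj]
      exact hji
    · right
      refine hc1 _ _ ?_
      rw [Nat.mod_eq_of_lt hj]
      split_ifs at e1 e2 <;> omega
  have hne : ∀ i, c i ≠ c (i + 2) := by
    intro i h
    have hk : i % D < D := Nat.mod_lt _ hDpos
    have := hcinj _ _ h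
    rw [hmod i 2 (by omega)] at this
    split_ifs at this <;> omega
  have hnadj : ∀ i, ¬ G.Adj (c i) (c (i + 2)) := by
    intro i h
    have hk : i % D < D := Nat.mod_lt _ hDpos
    rw [hcadj, hmod i 2 (by omega), cycAdj_iff' hk (by split_ifs <;> omega)] at h
    split_ifs at h <;> omega
  have harc := fun i => arc api hR (hcmem (i + 1)) (hcmem i) (hcmem (i + 2)) (hadj1 i)
    (hadj1 (i + 1)).symm (hne i) (honly i) (hnadj i) (hG.link _)
  choose x y m hnd hmem hch hxa hyb huniq hdgIn using harc
  have hxX : ∀ i, x i ∈ X := fun i => ((hmem i (x i)).1 (by simp)).1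
  have hxz : ∀ i, G.Adj (c (i + 1)) (x i) := fun i => ((hmem i (x i)).1 (by simp)).2
  have hyX : ∀ i, y i ∈ X := fun i => ((hmem i (y i)).1 (by simp)).1
  have hyz : ∀ i, G.Adj (c (i + 1)) (y i) := fun i => ((hmem i (y i)).1 (by simp)).2
  have hyx : ∀ i, y i = x (i + 1) := by
    intro i
    exact huniq (i + 1) (y i) (hyX i) (hyb i) (hyz i).symm
  have hxper : x D = x 0 := by
    refine huniq 0 (x D) (hxX D) ?_ ?_
    · have := (hxz D).symm
      have e : c (D + 1) = c (0 + 1) := by
        have := hcper (0 + 1)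
        rwa [show 0 + 1 + D = D + 1 by ring] at this
      rwa [e] at this
    · have := hxa D
      have e : c D = c 0 := by
        have := hcper 0
        rwa [zero_add] at this
      rwa [e] at this
  have hcD : c D = c 0 := by
    have := hcper 0
    rwa [zero_add] at this
  have hcD1 : c (D + 1) = c 1 := by
    have := hcper 1
    rwa [show 1 + D = D + 1 by ring] at this
  -- capacities
  let g : V → ℤ := fun t => if dg G t = 4 then 2 * M else if dg G t = 5 then M else 0
  have hw : ∀ t ∈ X, ∀ z, (w t z : ℤ) ≤ g t := by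
    intro t ht z
    by_cases e4 : dg G t = 4
    · have := (cap4 t ht e4 z).1
      simp only [g, if_pos e4]
      exact_mod_cast this
    · by_cases e5 : dg G t = 5
      · have := (cap5 t ht e5 z).1
        simp only [g, if_neg e4, if_pos e5]
        exact_mod_cast this
      · simp only [g, if_neg e4, if_neg e5]
        have : w t z = 0 := by
          by_contra hne
          rcases (h1 t z hne).2.2.1 with h | h
          · exact e4 h
          · exact e5 h
        rw [this]
        simp
  have hval : ∀ t ∈ X, ∀ z z', G.Adj z z' → (w t z : ℤ) + w t z' ≤ g t := by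
    intro t ht z z' hzz
    by_cases e4 : dg G t = 4
    · have := (cap4 t ht e4 z).2 z' hzz
      simp only [g, if_pos e4]
      exact_mod_cast this
    · by_cases e5 : dg G t = 5
      · have := (cap5 t ht e5 z).2 z' hzz
        simp only [g, if_neg e4, if_pos e5]
        exact_mod_cast this
      · simp only [g, if_neg e4, if_neg e5]
        have hz0 : ∀ z, w t z = 0 := by
          intro z
          by_contra hne
          rcases (h1 t z hne).2.2.1 with h | h
          · exact e4 h
          · exact e5 h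
        rw [hz0, hz0]
        simp
  have hgg : ∀ s ∈ X, ∀ t ∈ X, G.Adj s t → g s + g t ≤ 2 * M := by
    intro s hs t ht hst
    by_cases e4 : dg G s = 4
    · have f4 := hR.no44 s hs t ht hst e4
      have f5 := hR.no45 s hs t ht hst e4
      simp only [g, if_pos e4, if_neg f4, if_neg f5]
      linarith
    · by_cases e4' : dg G t = 4
      · have f4 := hR.no44 t ht s hs hst.symm e4'
        have f5 := hR.no45 t ht s hs hst.symm e4'
        simp only [g, if_pos e4', if_neg f4, if_neg f5]
        linarith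
      · simp only [g, if_neg e4, if_neg e4']
        split_ifs <;> linarith
  -- one boundary vertex
  let val : ℕ → ℤ := fun i => (w (x i) (c i) : ℤ) + w (x i) (c (i + 1))
  have hone : ∀ i, 2 * (r (c (i + 1)) + M * (2 - (dgIn G X (c (i + 1)) : ℤ))) ≤
      2 * (w (x i) (c (i + 1)) : ℤ) + 2 * (w (x (i + 1)) (c (i + 1)) : ℤ) + 2 * M - val i - val (i + 1) := by
    intro i
    have hr : r (c (i + 1)) = (w (x i) (c (i + 1)) : ℤ) + ((m i).map (fun t => (w t (c (i + 1)) : ℤ))).sum +
        w (y i) (c (i + 1)) := by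
      have e1 : r (c (i + 1)) = ∑ t ∈ (x i :: (m i ++ [y i])).toFinset, (w t (c (i + 1)) : ℤ) := by
        symm
        refine sum_subset (subset_univ _) fun t _ ht => ?_
        by_contra hne'
        have hne2 : w t (c (i + 1)) ≠ 0 := by exact_mod_cast hne'
        obtain ⟨q1, q2, -, -⟩ := h1 t _ hne2
        exact ht (List.mem_toFinset.2 ((hmem i t).2 ⟨q1, q2.symm⟩))
      rw [e1, List.sum_toFinset _ (hnd i)]
      simp only [List.map_cons, List.map_append, List.map_nil, List.sum_cons, List.sum_append,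
        List.sum_nil, add_zero]
      ring
    have hcb : (x i :: (m i ++ [y i])).IsChain (fun s t => g s + g t ≤ 2 * M) := by
      rw [List.isChain_iff_getElem]
      intro k hk
      have a1 := (List.isChain_iff_getElem.1 (hch i)) k hk
      exact hgg _ ((hmem i _).1 (List.getElem_mem _)).1 _ ((hmem i _).1 (List.getElem_mem _)).1 a1
    have hb := chain_bound g M (y i) (m i) (x i) (g (x i)) le_rfl hcb
    have hinner : ((m i).map (fun t => 2 * (w t (c (i + 1)) : ℤ) - 2 * M)).sum ≤
        ((m i).map (fun t => 2 * g t - 2 * M)).sum := by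
      refine List.sum_le_sum ?_
      intro t ht
      have := hw t ((hmem i t).1 (by simp [ht])).1 (c (i + 1))
      linarith
    have hsplit : ∀ l : List V, (l.map (fun t => 2 * (w t (c (i + 1)) : ℤ) - 2 * M)).sum =
        2 * (l.map (fun t => (w t (c (i + 1)) : ℤ))).sum - 2 * M * l.length := by
      intro l
      induction l with
      | nil => simp
      | cons t l ih =>
        simp only [List.map_cons, List.sum_cons, List.length_cons, ih]
        push_cast
        ring
    have hv1 : val i ≤ g (x i) := hval (x i) (hxX i) _ _ (hadj1 i).symm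
    have hv2 : val (i + 1) ≤ g (x (i + 1)) := hval (x (i + 1)) (hxX _) _ _ (hadj1 (i + 1)).symm
    rw [hyx i] at hr hb
    rw [hr, hdgIn i]
    rw [hsplit] at hinner
    push_cast
    linarith
  -- sum over the cycle
  have hCsum : ∀ f : V → ℤ, (C.map f).sum = ∑ i ∈ range D, f (c i) := by
    intro f
    conv_lhs => rw [hCc]
    rw [List.map_map]
    rfl
  have hRsum : ∑ z ∈ C.toFinset, r z = ∑ i ∈ range D, r (c i) := by
    rw [List.sum_toFinset _ hR.cyc.nodup, hCsum]
  have heuler := hR.euler
  have hXfin : (∑ᶠ v ∈ X, (6 - (dg G v : ℤ))) = ∑ v ∈ XF, (6 - (dg G v : ℤ)) := by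
    have hXX : X = (XF : Set V) := by
      ext v
      simp [XF]
    conv_lhs => rw [hXX]
    exact finsum_mem_coe_finset _ _
  rw [hXfin, hCsum] at heuler
  let F : ℕ → ℤ := fun i => 2 * (r (c i) + M * (2 - (dgIn G X (c i) : ℤ)))
  have hFs : ∑ i ∈ range D, F (i + 1) = ∑ i ∈ range D, F i := by
    refine sum_shift D F ?_
    simp only [F, hcD]
  have hvs : ∑ i ∈ range D, val (i + 1) = ∑ i ∈ range D, val i := by
    refine sum_shift D val ?_
    simp only [val, hcD, hcD1, hxper, zero_add]
  have hws : ∑ i ∈ range D, (w (x (i + 1)) (c (i + 1)) : ℤ) = ∑ i ∈ range D, (w (x i) (c i) : ℤ) := by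
    refine sum_shift D (fun i => (w (x i) (c i) : ℤ)) ?_
    simp only [hcD, hxper]
  have hle : ∑ i ∈ range D, F (i + 1) ≤ ∑ i ∈ range D,
      (2 * (w (x i) (c (i + 1)) : ℤ) + 2 * (w (x (i + 1)) (c (i + 1)) : ℤ) + 2 * M - val i - val (i + 1)) :=
    sum_le_sum fun i _ => hone i
  have hrhs : ∑ i ∈ range D,
      (2 * (w (x i) (c (i + 1)) : ℤ) + 2 * (w (x (i + 1)) (c (i + 1)) : ℤ) + 2 * M - val i - val (i + 1)) =
      2 * M * D := by
    have hval2 : ∑ i ∈ range D, val i = ∑ i ∈ range D, (w (x i) (c i) : ℤ) +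
        ∑ i ∈ range D, (w (x i) (c (i + 1)) : ℤ) := sum_add_distrib
    rw [sum_sub_distrib, sum_sub_distrib, sum_add_distrib, sum_add_distrib, hvs, hval2, ← mul_sum,
      ← mul_sum, hws, sum_const, card_range, nsmul_eq_mul]
    ring
  have hFsum : ∑ i ∈ range D, F i = 2 * ∑ i ∈ range D, r (c i) +
      2 * M * ∑ i ∈ range D, (2 - (dgIn G X (c i) : ℤ)) := by
    simp only [F]
    rw [← mul_sum, sum_add_distrib, ← mul_sum]
    ring
  have hfinal : (M : ℤ) * 6 ≤ M * D := by
    have e1 : (M : ℤ) * 6 ≤ M * (∑ v ∈ XF, (6 - (dg G v : ℤ)) +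
        ∑ i ∈ range D, (2 - (dgIn G X (c i) : ℤ))) := mul_le_mul_of_nonneg_left heuler hM'.le
    rw [mul_add] at e1
    rw [hRsum] at hsumX
    rw [hFs, hFsum, hrhs] at hle
    linarith
  have : (6 : ℤ) ≤ D := le_of_mul_le_mul_left hfinal hM'
  omega

end StrongArb.H59
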